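import Pool.Agent.Lib.MP_72e2e6_nt.W2.Fin.Defs
import Pool.Agent.Lib.MP_72e2e6_nt.W2.Stmt

/-!
# MP_72e2e6_nt: the two forms of the statement on the wild quadratic twists

The statement `MP72Y.T3` (general completions and separable closures) follows from `MP72W.T3`
(the concrete completions and the concrete separable closures).
-/

namespace Pool.Agent.MP72Y

open Polynomial WeierstrassCurve

section

variable {L : Type} [Field L] {V : WeierstrassCurve.Affine L}

private theorem e_add (i j : DecidableEq L) (P Q : V.Point) :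
    (letI := i; P + Q) = (letI := j; P + Q) := by
  obtain rfl : i = j := Subsingleton.elim i j
  rfl

private theorem e_sub (i j : DecidableEq L) (P Q : V.Point) :
    (letI := i; P - Q) = (letI := j; P - Q) := by
  obtain rfl : i = j := Subsingleton.elim i j
  rfl

private theorem e_smul (i j : DecidableEq L) (n : ℕ) (P : V.Point) :
    (letI := i; n • P) = (letI := j; n • P) := by
  obtain rfl : i = j := Subsingleton.elim i j
  rfl

end

variable {K : Type} [Field K] (W : WeierstrassCurve K)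

private theorem coc_of {z : Gal(SeparableClosure K/K) → (W⁄(SeparableClosure K)).toAffine.Point}
    (h : IsCoc W z) : MP72W.IsCoc W z :=
  ⟨h.loc, fun σ τ => (h.mul σ τ).trans (e_add _ _ _ _)⟩

private theorem dense_compl (v : AbsoluteValue K ℝ) :
    DenseRange (algebraMap K v.Completion) := by
  have h : DenseRange ((↑) : WithAbs v → v.Completion) := UniformSpace.Completion.denseRange_coe
  intro x
  have := h x
  rw [Metric.mem_closure_iff] at this ⊢
  intro ε hε
  obtain ⟨_, ⟨y, rfl⟩, hy⟩ := this ε hε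
  exact ⟨_, ⟨WithAbs.equiv v y, rfl⟩, hy⟩

private theorem norm_compl (v : AbsoluteValue K ℝ) (x : K) :
    ‖algebraMap K v.Completion x‖ = v x :=
  UniformSpace.Completion.norm_coe _

private theorem loc_of {z : Gal(SeparableClosure K/K) → (W⁄(SeparableClosure K)).toAffine.Point}
    {v : AbsoluteValue K ℝ}
    (h : LocTriv W z v.Completion (SeparableClosure v.Completion)) :
    MP72W.LocTriv W z v.Completion := by
  intro ι
  obtain ⟨Q, hQ⟩ := h ι
  exact ⟨Q, fun σ τ hh => (hQ σ τ hh).trans (e_sub _ _ _ _)⟩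

private theorem sha_of {z : Gal(SeparableClosure K/K) → (W⁄(SeparableClosure K)).toAffine.Point}
    (h : InSha W z) : MP72W.InSha W z :=
  ⟨coc_of W h.1, fun v hv => loc_of W
    (h.2 v hv v.Completion (SeparableClosure v.Completion) (norm_compl v) (dense_compl v))⟩

theorem shaTwoFin_of (h : MP72W.ShaTwoFin W) : ShaTwoFin W (SeparableClosure K) := by
  obtain ⟨T, hT, h⟩ := h
  refine ⟨T, hT, fun z hz ⟨n, P, hP⟩ => ?_⟩
  obtain ⟨y, hy, Q, hQ⟩ := h z (sha_of W hz) ⟨n, P, fun σ =>
    ((e_smul _ _ _ _).trans (hP σ)).trans (e_sub _ _ _ _)⟩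
  exact ⟨y, hy, Q, fun σ => ((e_sub _ _ _ _).trans (hQ σ)).trans (e_sub _ _ _ _)⟩

private theorem tw_finite {F : Type} [Field F] [Finite F] (PP : Finset F[X]) (e : F[X] → ℕ)
    (n : ℕ) : (Tw PP e n).Finite := by
  have h1 : Finite (Polynomial.degreeLT F (n + ∑ P ∈ PP, e P * P.natDegree + 1)) :=
    Finite.of_equiv _ (Polynomial.degreeLTEquiv F _).symm.toEquiv
  refine (Set.Finite.image (fun g : F[X] => algebraMap F[X] (RatFunc F) g /
    algebraMap F[X] (RatFunc F) (∏ P ∈ PP, P ^ e P))
    (Set.toFinite ((Polynomial.degreeLT F (n + ∑ P ∈ PP, e P * P.natDegree + 1) :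
      Submodule F F[X]) : Set F[X]))).subset ?_
  rintro D ⟨g, hg, rfl⟩
  refine ⟨g, ?_, rfl⟩
  rw [SetLike.mem_coe, Polynomial.mem_degreeLT]
  exact lt_of_le_of_lt Polynomial.degree_le_natDegree (by exact_mod_cast Nat.lt_succ_of_le hg)

theorem t3_of (h : MP72W.T3) : T3 := by
  intro F _ _ _ E hΔ ha PP hPP hgood ε hε
  obtain ⟨e₀, he⟩ := h F E hΔ ha PP hPP hgood ε hε
  refine ⟨e₀, fun e n he' hn => (he e n he' hn).trans ?_⟩
  refine Nat.cast_le.2 (Set.ncard_le_ncard ?_ ((tw_finite PP e n).subset ?_))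
  · rintro D ⟨h1, h2, h3⟩
    exact ⟨h1, h2, shaTwoFin_of _ h3⟩
  · rintro D ⟨h1, -⟩
    exact h1

end Pool.Agent.MP72Y
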