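import Mathlib

/-!
# MP_72e2e6_nt: the statement on the wild quadratic twists (definitions)

`W` is a Weierstrass curve over a field `K` and `L` an extension of `K` (a separable closure of `K` in
the statement). `InSha W z` says that `z` is a locally constant crossed homomorphism
`Gal(L/K) → W(L)` whose restriction to the absolute Galois group of the completion of `K` at every
nontrivial absolute value is trivial; `ShaTwoFin W L` says that the `2`-primary component of the
Tate-Shafarevich group (the classes of these crossed homomorphisms which are killed by a power of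
`2`) is finite. `twist W D` is the quadratic twist of `W` (in characteristic two) by the
Artin-Schreier extension `θ ^ 2 + θ = D`. `Tw PP e n` is the set of the functions `D ∈ F(t)` whose poles
are in `PP` (of order at most `e P` at `P`) and at infinity (of order at most `n`).
-/

namespace Pool.Agent.MP72Y

open Polynomial WeierstrassCurve

section

variable {K : Type} [Field K] (W : WeierstrassCurve K)

open scoped Classical in
/-- The map on points induced by a homomorphism of fields over `S`, `S` a field over which the curve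
is defined. -/
noncomputable def pmap {S L M : Type} [Field S] [Field L] [Field M] [Algebra K S] [Algebra K L]
    [Algebra K M] [Algebra S L] [Algebra S M] [IsScalarTower K S L] [IsScalarTower K S M]
    (f : L →ₐ[S] M) (P : (W⁄L).toAffine.Point) : (W⁄M).toAffine.Point :=
  Affine.Point.map f P

open scoped Classical in
/-- `z` is a locally constant crossed homomorphism. -/
structure IsCoc {L : Type} [Field L] [Algebra K L] (z : Gal(L/K) → (W⁄L).toAffine.Point) :
    Prop where
  loc : IsLocallyConstant z
  mul : ∀ σ τ, z (σ * τ) = z σ + pmap W (σ : L →ₐ[K] L) (z τ)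

open scoped Classical in
/-- `z` is trivial over the extension `M` of `K` with the separable closure `N`: for every embedding
`ι` of `L` in `N` there is a point `Q` over `N` with `ι (z σ) = τ Q - Q` whenever `σ` is the restriction of
`τ ∈ Gal(N/M)` to `L`. -/
def LocTriv {L : Type} [Field L] [Algebra K L] (z : Gal(L/K) → (W⁄L).toAffine.Point)
    (M N : Type) [Field M] [Field N] [Algebra K M] [Algebra K N] [Algebra M N]
    [IsScalarTower K M N] : Prop :=
  ∀ ι : L →ₐ[K] N, ∃ Q : (W⁄N).toAffine.Point, ∀ (σ : Gal(L/K)) (τ : Gal(N/M)),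
    (∀ x, τ (ι x) = ι (σ x)) → pmap W ι (z σ) = pmap W (τ : N →ₐ[M] N) Q - Q

/-- `z` defines an element of the Tate-Shafarevich group: it is trivial over every completion `M` of `K`
(a complete normed field in which `K`, with the nontrivial absolute value `v`, is dense), `N` a separable
closure of `M`. -/
def InSha {L : Type} [Field L] [Algebra K L] (z : Gal(L/K) → (W⁄L).toAffine.Point) : Prop :=
  IsCoc W z ∧ ∀ v : AbsoluteValue K ℝ, v.IsNontrivial →
    ∀ (M N : Type) [NormedField M] [CompleteSpace M] [Field N] [Algebra K M] [Algebra K N]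
      [Algebra M N] [IsScalarTower K M N] [IsSepClosure M N],
      (∀ x : K, ‖algebraMap K M x‖ = v x) → DenseRange (algebraMap K M) → LocTriv W z M N

open scoped Classical in
/-- The `2`-primary component of the Tate-Shafarevich group is finite. -/
def ShaTwoFin (L : Type) [Field L] [Algebra K L] : Prop :=
  ∃ T : Set (Gal(L/K) → (W⁄L).toAffine.Point), T.Finite ∧ ∀ z, InSha W z →
    (∃ (n : ℕ) (P : (W⁄L).toAffine.Point), ∀ σ,
      2 ^ n • z σ = pmap W (σ : L →ₐ[K] L) P - P) →
    ∃ y ∈ T, ∃ P : (W⁄L).toAffine.Point, ∀ σ, z σ - y σ = pmap W (σ : L →ₐ[K] L) P - P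

/-- The quadratic twist in characteristic two by the extension `θ ^ 2 + θ = D`. -/
def twist (D : K) : WeierstrassCurve K :=
  ⟨W.a₁, W.a₂ + D * W.a₁ ^ 2, W.a₃, W.a₄, W.a₆ + D * W.a₃ ^ 2⟩

end

/-- The functions with poles of order at most `e P` at the `P ∈ PP` and at most `n` at infinity. -/
def Tw {F : Type} [Field F] (PP : Finset F[X]) (e : F[X] → ℕ) (n : ℕ) : Set (RatFunc F) :=
  {D | ∃ g : F[X], g.natDegree ≤ n + ∑ P ∈ PP, e P * P.natDegree ∧
    D = algebraMap F[X] (RatFunc F) g / algebraMap F[X] (RatFunc F) (∏ P ∈ PP, P ^ e P)}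

/-- THEOREM T3. -/
def T3 : Prop :=
  ∀ (F : Type) [Field F] [Finite F] [CharP F 2] (E : WeierstrassCurve (RatFunc F)),
    E.Δ ≠ 0 → E.a₁ ≠ 0 →
    ∀ PP : Finset F[X], (∀ P ∈ PP, P.Monic ∧ Irreducible P) →
    (∀ P : F[X], P.Monic → Irreducible P → P ∉ PP →
      ¬ P ∣ E.a₁.denom ∧ ¬ P ∣ E.a₂.denom ∧ ¬ P ∣ E.a₃.denom ∧ ¬ P ∣ E.a₄.denom ∧
        ¬ P ∣ E.a₆.denom ∧ ¬ P ∣ E.a₁.num ∧ ¬ P ∣ E.Δ.num) →
    ∀ ε : ℝ, 0 < ε → ∃ e₀ : ℕ, ∀ (e : F[X] → ℕ) (n : ℕ), (∀ P ∈ PP, e₀ ≤ e P) → e₀ ≤ n →
      (1 - ε) * ((Tw PP e n).ncard : ℝ) ≤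
        ({D ∈ Tw PP e n | Finite (twist E D).toAffine.Point ∧
          ShaTwoFin (twist E D) (SeparableClosure (RatFunc F))}.ncard : ℝ)

end Pool.Agent.MP72Y
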